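import Pool.Agent.LKCNF.NOFMain

set_option autoImplicit false

namespace Pool.Agent.Results.MP_46bc2b_lc.ExplicitDoublyExponential

open Pool.Agent.LKCNF

/-- For `k ≥ 2` and `m ≥ (k + 2) 2 ^ (k - 1)`, the formula `prodFormula ℓ` over the field with
`2 ^ m` elements is a linear `k`-CNF with exactly `2 ^ (m k)` clauses, and every assignment
falsifies at least the fraction `2 ^ (- k - 1)` of its clauses. -/
theorem result (k m : ℕ) (hk : 2 ≤ k) (hm : (k + 2) * 2 ^ (k - 1) ≤ m) (K : Type) [Field K]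
    [Fintype K] [DecidableEq K] [Algebra (ZMod 2) K] (hK : Fintype.card K = 2 ^ m)
    (ℓ : Fin k → (K →ₗ[ZMod 2] ZMod 2)) (hℓ : LinearIndependent (ZMod 2) ℓ) :
    IsKCNF k (prodFormula ℓ) ∧ IsLinear (prodFormula ℓ) ∧ (prodFormula ℓ).card = 2 ^ (m * k) ∧
      ∀ a : Fin k × (Fin k → K) → Bool, (prodFormula ℓ).card ≤
        2 ^ (k + 1) * {C | C ∈ prodFormula ℓ ∧ ¬ SatC a C}.ncard :=
  prod_main k m hk hm ℓ hK hℓ

end Pool.Agent.Results.MP_46bc2b_lc.ExplicitDoublyExponential
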