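import Pool.Agent.LKCNF.SoSMain

set_option autoImplicit false

namespace Pool.Agent.Results.MP_46bc2b_lc.SumOfSquaresDegree

open Pool.Agent.LKCNF

/-- Linear `k`-CNF formulas with at most `2 ^ (c k)` clauses have no Sum-of-Squares refutation of
degree at most `2 ^ (k / 2 ^ (4 c + 17))`. -/
theorem result (c k : ℕ) (hck : 2 ^ (12 * c + 60) * (c + 1) ^ 3 ≤ k) (V : Type) [Fintype V]
    [DecidableEq V] (F : Finset (Finset (V × Bool))) (hk : IsKCNF k F) (hl : IsLinear F)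
    (hF : F.card ≤ 2 ^ (c * k)) (d : ℕ)
    (hd : (d : ℝ) ≤ (2 : ℝ) ^ ((k : ℝ) / 2 ^ (4 * c + 17))) : ¬ SoSRefutable d F :=
  sos_bound c k (kk_le c k hck) F hk hl hF d hd

end Pool.Agent.Results.MP_46bc2b_lc.SumOfSquaresDegree
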