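import Pool.Agent.LKTL.Main

set_option autoImplicit false

namespace Pool.Agent.Results.MP_46bc2b_lc.TreeResolutionSize

open Pool.Agent.LKCNF

/-- For every `k ≥ 1`, every tree-like resolution refutation of a linear `k`-CNF formula (with any
number of clauses) has at least `2 ^ (2 ^ k / (2 ^ 36 k ^ 5))` nodes. -/
theorem result (k : ℕ) (hk : 1 ≤ k) (V : Type) [DecidableEq V]
    (F : Finset (Finset (V × Bool))) (hF : IsKCNF k F) (hlin : IsLinear F)
    (s : ℕ) (hs : TreeRes F ∅ s) :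
    (2 : ℝ) ^ ((2 : ℝ) ^ k / (2 ^ 36 * (k : ℝ) ^ 5)) ≤ s :=
  Pool.Agent.LKTL.main hk hF hlin hs

end Pool.Agent.Results.MP_46bc2b_lc.TreeResolutionSize
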